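import Pool.Agent.W181.WH.All

/-!
# MP_2f3d29_nt: shift equations for Mellin transforms of GL(n,R) Whittaker functions

`n = N + 1`; the indices `j, m` of the problem are `j + 1, m + 1` here.
-/

open MeasureTheory

namespace Pool.Agent.Results.MP_2f3d29_nt.ShiftEquations

open Pool.Agent.W181.WH

theorem prod_compl {N : ℕ} (m : Fin N) (δ : ℕ) (α : Fin (N + 1) → ℂ) (hα : ∑ i, α i = 0)
    (z : ℂ) :
    ∏ J ∈ Finset.powersetCard (N - (m : ℕ)) (Finset.univ : Finset (Fin (N + 1))),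
        rise (z + ∑ j ∈ J, α j) δ =
      ∏ J ∈ Finset.powersetCard ((m : ℕ) + 1) (Finset.univ : Finset (Fin (N + 1))),
        rise (z - ∑ j ∈ J, α j) δ := by
  have hm := m.2
  refine Finset.prod_bij' (fun J _ => Jᶜ) (fun J _ => Jᶜ) ?_ ?_ ?_ ?_ ?_
  · intro J hJ
    rw [Finset.mem_powersetCard] at hJ ⊢
    refine ⟨Finset.subset_univ _, ?_⟩
    rw [Finset.card_compl, hJ.2, Fintype.card_fin]
    omega
  · intro J hJ
    rw [Finset.mem_powersetCard] at hJ ⊢
    refine ⟨Finset.subset_univ _, ?_⟩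
    rw [Finset.card_compl, hJ.2, Fintype.card_fin]
    omega
  · intro J _
    exact compl_compl J
  · intro J _
    exact compl_compl J
  · intro J _
    have h1 : ∑ j ∈ J, α j + ∑ j ∈ Jᶜ, α j = 0 := by
      rw [Finset.sum_add_sum_compl, hα]
    rw [show z + ∑ j ∈ J, α j = z - ∑ j ∈ Jᶜ, α j by linear_combination h1]

theorem result (N : ℕ) :
    (∃ W, IsWhittaker N W) ∧
    ∀ (m : Fin N) (δ : ℕ), ∃ (r : ℕ) (P : Fin r → MvPolynomial (Fin N ⊕ Fin (N + 1)) ℂ)
      (S : Fin r → Fin N → ℕ), 1 ≤ r ∧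
      (∀ i, P i ≠ 0 ∧
        (P i).totalDegree + 2 * ∑ j, S i j = δ * (N + 1).choose ((m : ℕ) + 1)) ∧
      (∀ i, δ ≤ S i m) ∧
      ∀ W, IsWhittaker N W → ∀ α : Fin (N + 1) → ℂ, ∑ i, α i = 0 → ∀ s : Fin N → ℂ,
        MelConv W α s → (∀ i, MelConv W α (fun j => s j + (S i j : ℂ))) →
        (∏ J ∈ Finset.powersetCard ((m : ℕ) + 1) (Finset.univ : Finset (Fin (N + 1))),
          rise (s m - ∑ j ∈ J, α j) δ) * mel W α s =
            ∑ i, MvPolynomial.eval (Sum.elim s α) (P i) * mel W α (fun j => s j + (S i j : ℂ)) ∧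
        (∏ J ∈ Finset.powersetCard (N - (m : ℕ)) (Finset.univ : Finset (Fin (N + 1))),
          rise (s m + ∑ j ∈ J, α j) δ) * mel W α s =
            ∑ i, MvPolynomial.eval (Sum.elim s α) (P i) *
              mel W α (fun j => s j + (S i j : ℂ)) := by
  obtain ⟨h1, h2⟩ := shift_all N
  refine ⟨h1, fun m δ => ?_⟩
  obtain ⟨r, P, S, hr, hP, hS, hid⟩ := h2 m δ
  refine ⟨r, P, S, hr, hP, hS, fun W hW α hα s h0 hSi => ?_⟩
  have key := hid W hW α hα s h0 hSi
  exact ⟨key, by rw [prod_compl m δ α hα]; exact key⟩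

end Pool.Agent.Results.MP_2f3d29_nt.ShiftEquations
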